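import Pool.Agent.Helper17.FX.Defs

set_option autoImplicit false

/-!
Basic consequences of additivity (values in ZMod 2, so signs do not matter).
-/

namespace Pool.Agent.Helper17.FX

open Polynomial

section cls
variable {S : Type} [CommRing S] {a s : S}

theorem Cls.sub [IsNoetherianRing S] {M N : Type} [AddCommGroup M] [Module S M] [AddCommGroup N]
    [Module S N] (h : Cls a s M) (f : N →ₗ[S] M) (hf : Function.Injective f) : Cls a s N := by
  obtain ⟨h1, h2, n, h3⟩ := h
  have := h1
  have : IsNoetherian S M := isNoetherian_of_isNoetherianRing_of_finite S M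
  refine ⟨Module.Finite.of_injective f hf, fun m => hf (by rw [map_smul, h2, map_zero]),
    n, fun m => hf (by rw [map_smul, h3, map_zero])⟩

theorem Cls.quot {M N : Type} [AddCommGroup M] [Module S M] [AddCommGroup N]
    [Module S N] (h : Cls a s M) (f : M →ₗ[S] N) (hf : Function.Surjective f) : Cls a s N := by
  obtain ⟨h1, h2, n, h3⟩ := h
  have := h1
  refine ⟨Module.Finite.of_surjective f hf, fun m => ?_, n, fun m => ?_⟩
  · obtain ⟨x, rfl⟩ := hf m
    rw [← map_smul, h2, map_zero]
  · obtain ⟨x, rfl⟩ := hf m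
    rw [← map_smul, h3, map_zero]

theorem Cls.submodule [IsNoetherianRing S] {M : Type} [AddCommGroup M] [Module S M]
    (h : Cls a s M) (P : Submodule S M) : Cls a s P := h.sub P.subtype P.injective_subtype

theorem Cls.mkQ {M : Type} [AddCommGroup M] [Module S M]
    (h : Cls a s M) (P : Submodule S M) : Cls a s (M ⧸ P) := h.quot P.mkQ P.mkQ_surjective

theorem Cls.equiv {M N : Type} [AddCommGroup M] [Module S M] [AddCommGroup N]
    [Module S N] (h : Cls a s M) (e : M ≃ₗ[S] N) : Cls a s N :=
  h.quot e.toLinearMap e.surjective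

theorem Cls.of_subsingleton {M : Type} [AddCommGroup M] [Module S M] [Subsingleton M] :
    Cls a s M := ⟨inferInstance, fun _ => Subsingleton.elim _ _, 0, fun _ => Subsingleton.elim _ _⟩

theorem cls_zero {M : Type} [AddCommGroup M] [Module S M] (h : Module.Finite S M) :
    Cls (0 : S) 0 M := ⟨h, fun m => zero_smul _ m, 1, fun m => by rw [pow_one, zero_smul]⟩

theorem cls_zero' {M : Type} [AddCommGroup M] [Module S M] (h : Module.Finite S M) {a : S}
    (ha : ∀ m : M, a • m = 0) : Cls (a : S) 0 M := ⟨h, ha, 1, fun m => by rw [pow_one, zero_smul]⟩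

/-- a module in the class (a, s) is in the class (0, s) -/
theorem Cls.fst_zero {M : Type} [AddCommGroup M] [Module S M] (h : Cls a s M) : Cls 0 s M :=
  ⟨h.1, fun m => zero_smul _ m, h.2.2⟩

/-- a module in the class (a, s) is in the class (a, 0) -/
theorem Cls.snd_zero {M : Type} [AddCommGroup M] [Module S M] (h : Cls a s M) : Cls a 0 M :=
  ⟨h.1, h.2.1, 1, fun m => by rw [pow_one, zero_smul]⟩

/-- killed by s : in the class (0, s) -/
theorem cls_of_smul {M : Type} [AddCommGroup M] [Module S M] (h : Cls s 0 M) : Cls 0 s M :=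
  ⟨h.1, fun m => zero_smul _ m, 1, fun m => by rw [pow_one]; exact h.2.1 m⟩

end cls

section add
variable {S : Type} [CommRing S] {a s : S} {L : Fn S}

theorem AddOn.mono {a' s' : S} (hL : AddOn a s L)
    (h : ∀ (M : Type) [AddCommGroup M] [Module S M], Cls a' s' M → Cls a s M) : AddOn a' s' L := by
  intro M₁ M₂ M₃ _ _ _ _ _ _ f g hM hf he hg
  exact hL M₁ M₂ M₃ f g (h M₂ hM) hf he hg

theorem AddOn.punit (hL : AddOn a s L) : L PUnit = 0 := by
  have h := hL PUnit PUnit PUnit (0 : PUnit →ₗ[S] PUnit) 0 Cls.of_subsingleton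
    (fun x y _ => Subsingleton.elim x y) (fun x => ⟨fun _ => ⟨0, Subsingleton.elim _ _⟩,
      fun _ => Subsingleton.elim _ _⟩) (fun x => ⟨0, Subsingleton.elim _ _⟩)
  have h2 : L PUnit + L PUnit = L PUnit + 0 := by rw [← h, add_zero]
  exact add_left_cancel h2

/-- invariance under linear equivalences -/
theorem AddOn.iso (hL : AddOn a s L) {M N : Type} [AddCommGroup M] [Module S M] [AddCommGroup N]
    [Module S N] (e : M ≃ₗ[S] N) (hM : Cls a s M) : L M = L N := by
  have h := hL PUnit M N (0 : PUnit →ₗ[S] M) e.toLinearMap hM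
    (fun x y _ => Subsingleton.elim x y)
    (fun x => ⟨fun hx => ⟨0, by
      have : e x = 0 := hx
      rw [LinearEquiv.map_eq_zero_iff] at this
      rw [this]; rfl⟩, by rintro ⟨y, rfl⟩; simp⟩)
    e.surjective
  rw [h, hL.punit, zero_add]

theorem AddOn.zero (hL : AddOn a s L) {M : Type} [AddCommGroup M] [Module S M] [Subsingleton M] :
    L M = 0 := by
  have e : M ≃ₗ[S] PUnit := LinearEquiv.ofSubsingleton M PUnit
  rw [hL.iso e Cls.of_subsingleton, hL.punit]

/-- submodule and quotient -/
theorem AddOn.sub_quot (hL : AddOn a s L) {M : Type} [AddCommGroup M] [Module S M]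
    (hM : Cls a s M) (P : Submodule S M) : L M = L P + L (M ⧸ P) :=
  hL P M (M ⧸ P) P.subtype P.mkQ hM P.injective_subtype
    (LinearMap.exact_subtype_mkQ P) P.mkQ_surjective

/-- kernel and range of a map -/
theorem AddOn.ker_range (hL : AddOn a s L) {M N : Type} [AddCommGroup M] [Module S M]
    [AddCommGroup N] [Module S N] (hM : Cls a s M) (f : M →ₗ[S] N) :
    L M = L (LinearMap.ker f) + L (LinearMap.range f) := by
  refine hL (LinearMap.ker f) M (LinearMap.range f) (LinearMap.ker f).subtype f.rangeRestrict hM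
    (LinearMap.ker f).injective_subtype ?_ f.surjective_rangeRestrict
  intro x
  constructor
  · intro hx
    refine ⟨⟨x, ?_⟩, rfl⟩
    rw [LinearMap.mem_ker]
    exact congrArg Subtype.val hx
  · rintro ⟨y, rfl⟩
    exact Subtype.ext y.2

/-- range of f = ker g for an exact pair, as an equality of values -/
theorem AddOn.range_ker {M₁ M₂ M₃ : Type} [AddCommGroup M₁] [AddCommGroup M₂] [AddCommGroup M₃]
    [Module S M₁] [Module S M₂] [Module S M₃] (f : M₁ →ₗ[S] M₂) (g : M₂ →ₗ[S] M₃)
    (he : Function.Exact f g) : L (LinearMap.range f) = L (LinearMap.ker g) := by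
  rw [he.linearMap_ker_eq]

theorem AddOn.range_inj [IsNoetherianRing S] (hL : AddOn a s L) {M N : Type} [AddCommGroup M]
    [Module S M] [AddCommGroup N] [Module S N] (hM : Cls a s M) (f : M →ₗ[S] N)
    (hf : Function.Injective f) : L (LinearMap.range f) = L M :=
  (hL.iso (LinearEquiv.ofInjective f hf) hM).symm

theorem AddOn.range_surj (hL : AddOn a s L) {M N : Type} [AddCommGroup M] [Module S M]
    [AddCommGroup N] [Module S N] (hM : Cls a s M) (f : M →ₗ[S] N) (hf : Function.Surjective f) :
    L (LinearMap.range f) = L N := by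
  have h1 : Cls a s (LinearMap.range f) := hM.quot f.rangeRestrict f.surjective_rangeRestrict
  exact hL.iso (LinearEquiv.ofBijective (LinearMap.range f).subtype
    ⟨(LinearMap.range f).injective_subtype, fun y => by
      obtain ⟨x, rfl⟩ := hf y
      exact ⟨⟨f x, x, rfl⟩, rfl⟩⟩) h1

theorem z2 (x : ZMod 2) : x + x = 0 := CharTwo.add_self_eq_zero x

/-- exact sequence 0 -> A -> B -> C -> D -> 0 -/
theorem AddOn.exact4 [IsNoetherianRing S] (hL : AddOn a s L) {A B C D : Type} [AddCommGroup A]
    [AddCommGroup B] [AddCommGroup C] [AddCommGroup D] [Module S A] [Module S B] [Module S C]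
    [Module S D] (f : A →ₗ[S] B) (g : B →ₗ[S] C) (k : C →ₗ[S] D) (hB : Cls a s B) (hC : Cls a s C)
    (hf : Function.Injective f) (h1 : Function.Exact f g) (h2 : Function.Exact g k)
    (hk : Function.Surjective k) : L A + L B + L C + L D = 0 := by
  have hA := hB.sub f hf
  have e1 := hL.ker_range hB g
  have e2 := hL.ker_range hC k
  rw [← AddOn.range_ker (L := L) f g h1, hL.range_inj hA f hf] at e1
  rw [← AddOn.range_ker (L := L) g k h2, hL.range_surj hC k hk] at e2
  rw [e1, e2]
  linear_combination z2 (L A) + z2 (L (LinearMap.range g)) + z2 (L D)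

/-- exact sequence 0 -> A -> B -> C -> D -> E -> F -> 0 -/
theorem AddOn.exact6 [IsNoetherianRing S] (hL : AddOn a s L) {A B C D E F : Type}
    [AddCommGroup A] [AddCommGroup B] [AddCommGroup C] [AddCommGroup D] [AddCommGroup E]
    [AddCommGroup F] [Module S A] [Module S B] [Module S C] [Module S D] [Module S E] [Module S F]
    (f : A →ₗ[S] B) (g : B →ₗ[S] C) (k : C →ₗ[S] D) (p : D →ₗ[S] E) (q : E →ₗ[S] F)
    (hB : Cls a s B) (hC : Cls a s C) (hD : Cls a s D) (hE : Cls a s E)
    (hf : Function.Injective f) (h1 : Function.Exact f g) (h2 : Function.Exact g k)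
    (h3 : Function.Exact k p) (h4 : Function.Exact p q)
    (hq : Function.Surjective q) : L A + L B + L C + L D + L E + L F = 0 := by
  have hA := hB.sub f hf
  have e1 := hL.ker_range hB g
  have e2 := hL.ker_range hC k
  have e3 := hL.ker_range hD p
  have e4 := hL.ker_range hE q
  rw [← AddOn.range_ker (L := L) f g h1, hL.range_inj hA f hf] at e1
  rw [← AddOn.range_ker (L := L) g k h2] at e2
  rw [← AddOn.range_ker (L := L) k p h3] at e3
  rw [← AddOn.range_ker (L := L) p q h4, hL.range_surj hE q hq] at e4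
  rw [e1, e2, e3, e4]
  linear_combination z2 (L A) + z2 (L (LinearMap.range g)) + z2 (L (LinearMap.range k)) +
    z2 (L (LinearMap.range p)) + z2 (L F)

/-- free modules -/
theorem AddOn.free (hL : AddOn (0 : S) 0 L) (h : L S = 0) (n : ℕ) : L (Fin n → S) = 0 := by
  induction n with
  | zero => exact hL.zero
  | succ n ih =>
    have h1 := hL S (Fin (n + 1) → S) (Fin n → S)
      (LinearMap.single S (fun _ : Fin (n + 1) => S) 0)
      (LinearMap.funLeft S S (Fin.succ)) (cls_zero inferInstance) ?_ ?_ ?_
    · rw [h1, h, ih, add_zero]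
    · exact LinearMap.ker_eq_bot.mp (LinearMap.ker_single S _ 0)
    · intro x
      constructor
      · intro hx
        refine ⟨x 0, ?_⟩
        funext i
        refine Fin.cases ?_ (fun j => ?_) i
        · simp
        · have : x j.succ = 0 := congrFun hx j
          simp [this]
      · rintro ⟨y, rfl⟩
        funext j
        simp [LinearMap.funLeft_apply]
    · intro y
      refine ⟨Fin.cons 0 y, ?_⟩
      funext j
      simp [LinearMap.funLeft_apply]

end add

end Pool.Agent.Helper17.FX
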