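import Mathlib

set_option autoImplicit false

/-!
# Project FX, chapter KT (additive functionals on finite modules with values in ZMod 2)

`Fn S`: functions on S-modules.  `Cls a s M`: M finite, killed by a and by a power of s.
`AddOn a s L`: L additive on short exact sequences with middle term in the class.
`PP B`: every additive functional with value 0 at B vanishes on finite modules.
`Ext B s`: every functional l, additive on the s-power torsion modules, with l(B/s) = 0, extends to an
additive functional L on all finite modules, with L(B) = 0.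
-/

namespace Pool.Agent.Helper17.FX

open Polynomial TensorProduct

/-- functions on modules with values in ZMod 2 -/
def Fn (S : Type) [CommRing S] : Type 1 :=
  (M : Type) → [AddCommGroup M] → [Module S M] → ZMod 2

/-- finite, killed by a, killed by a power of s -/
def Cls {S : Type} [CommRing S] (a s : S) (M : Type) [AddCommGroup M] [Module S M] : Prop :=
  Module.Finite S M ∧ (∀ m : M, a • m = 0) ∧ ∃ n : ℕ, ∀ m : M, s ^ n • m = 0

/-- additive on short exact sequences with middle term in the class -/
def AddOn {S : Type} [CommRing S] (a s : S) (L : Fn S) : Prop :=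
  ∀ (M₁ M₂ M₃ : Type) [AddCommGroup M₁] [AddCommGroup M₂] [AddCommGroup M₃]
    [Module S M₁] [Module S M₂] [Module S M₃] (f : M₁ →ₗ[S] M₂) (g : M₂ →ₗ[S] M₃),
    Cls a s M₂ → Function.Injective f → Function.Exact f g → Function.Surjective g →
      L M₂ = L M₁ + L M₃

/-- the main property -/
def PP (B : Type) [CommRing B] : Prop :=
  ∀ L : Fn B, AddOn 0 0 L → L B = 0 → ∀ (M : Type) [AddCommGroup M] [Module B M],
    Module.Finite B M → L M = 0

/-- the extension property -/
def Ext (B : Type) [CommRing B] (s : B) : Prop :=
  ∀ l : Fn B, AddOn 0 s l → l (B ⧸ Ideal.span {s}) = 0 →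
    ∃ L : Fn B, AddOn 0 0 L ∧ L B = 0 ∧
      ∀ (M : Type) [AddCommGroup M] [Module B M], Cls 0 s M → L M = l M

/-- kernel of multiplication by h -/
abbrev K0 {S : Type} [CommRing S] (h : S) (M : Type) [AddCommGroup M] [Module S M] : Type :=
  LinearMap.ker (LinearMap.lsmul S M h)

/-- cokernel of multiplication by h -/
abbrev Q0 {S : Type} [CommRing S] (h : S) (M : Type) [AddCommGroup M] [Module S M] : Type :=
  M ⧸ LinearMap.range (LinearMap.lsmul S M h)

/-- K0 is a functor -/
def K0m {S : Type} [CommRing S] (h : S) {M N : Type} [AddCommGroup M] [Module S M]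
    [AddCommGroup N] [Module S N] (f : M →ₗ[S] N) : K0 h M →ₗ[S] K0 h N :=
  f.restrict (by
    intro x hx
    rw [LinearMap.mem_ker, LinearMap.lsmul_apply] at hx ⊢
    rw [← map_smul, hx, map_zero])

/-- Q0 is a functor -/
def Q0m {S : Type} [CommRing S] (h : S) {M N : Type} [AddCommGroup M] [Module S M]
    [AddCommGroup N] [Module S N] (f : M →ₗ[S] N) : Q0 h M →ₗ[S] Q0 h N :=
  Submodule.mapQ _ _ f (by
    rintro _ ⟨x, rfl⟩
    exact ⟨f x, by simp⟩)

theorem Q0m_mk {S : Type} [CommRing S] (h : S) {M N : Type} [AddCommGroup M] [Module S M]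
    [AddCommGroup N] [Module S N] (f : M →ₗ[S] N) (x : M) :
    Q0m h f (Submodule.Quotient.mk x) = Submodule.Quotient.mk (f x) := rfl

theorem K0m_val {S : Type} [CommRing S] (h : S) {M N : Type} [AddCommGroup M] [Module S M]
    [AddCommGroup N] [Module S N] (f : M →ₗ[S] N) (x : K0 h M) :
    ((K0m h f x : K0 h N) : N) = f x := rfl

/-- h = s X - c -/
noncomputable def hh {B : Type} [CommRing B] (s c : B) : B[X] := C s * X - C c

/-- the elementary modification B[X]/(s X - c) -/
abbrev Md (B : Type) [CommRing B] (s c : B) : Type := B[X] ⧸ Ideal.span {hh s c}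

/-- cokernel of h on N[X] -/
abbrev cc {B : Type} [CommRing B] (s c : B) (N : Type) [AddCommGroup N] [Module B N] : Type :=
  Q0 (hh s c) (PolynomialModule B N)

/-- kernel of h on N[X] -/
abbrev kk {B : Type} [CommRing B] (s c : B) (N : Type) [AddCommGroup N] [Module B N] : Type :=
  K0 (hh s c) (PolynomialModule B N)

/-- N[X] -> N'[X] induced by a linear map -/
noncomputable def pm {B : Type} [CommRing B] {N N' : Type} [AddCommGroup N] [Module B N]
    [AddCommGroup N'] [Module B N'] (f : N →ₗ[B] N') :
    PolynomialModule B N →ₗ[B[X]] PolynomialModule B N' :=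
  { toFun := PolynomialModule.map B f
    map_add' := map_add _
    map_smul' := fun p q => by
      have := PolynomialModule.map_smul B f p q
      simpa using this }

theorem pm_single {B : Type} [CommRing B] {N N' : Type} [AddCommGroup N] [Module B N]
    [AddCommGroup N'] [Module B N'] (f : N →ₗ[B] N') (i : ℕ) (n : N) :
    pm f (PolynomialModule.single B i n) = PolynomialModule.single B i (f n) :=
  PolynomialModule.map_single B f i n

theorem pm_coeff {B : Type} [CommRing B] {N N' : Type} [AddCommGroup N] [Module B N]
    [AddCommGroup N'] [Module B N'] (f : N →ₗ[B] N') (x : PolynomialModule B N) (i : ℕ) :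
    (pm f x).coeff i = f (x.coeff i) := rfl

/-- cc is a functor -/
noncomputable def cm {B : Type} [CommRing B] (s c : B) {N N' : Type} [AddCommGroup N] [Module B N]
    [AddCommGroup N'] [Module B N'] (f : N →ₗ[B] N') : cc s c N →ₗ[B[X]] cc s c N' :=
  Q0m (hh s c) (pm f)

/-- kk is a functor -/
noncomputable def km {B : Type} [CommRing B] (s c : B) {N N' : Type} [AddCommGroup N] [Module B N]
    [AddCommGroup N'] [Module B N'] (f : N →ₗ[B] N') : kk s c N →ₗ[B[X]] kk s c N' :=
  K0m (hh s c) (pm f)

/-- evaluation N[X] -> M for a B-linear map N -> M into a B[X]-module -/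
noncomputable def pev {B : Type} [CommRing B] {N M : Type} [AddCommGroup N] [Module B N]
    [AddCommGroup M] [Module B[X] M] [Module B M] [IsScalarTower B B[X] M] (f : N →ₗ[B] M) :
    PolynomialModule B N →ₗ[B[X]] M :=
  (LinearMap.liftBaseChange B[X] f).comp
    (PolynomialModule.polynomialTensorProductLEquivPolynomialModule B N).symm.toLinearMap

theorem pev_single {B : Type} [CommRing B] {N M : Type} [AddCommGroup N] [Module B N]
    [AddCommGroup M] [Module B[X] M] [Module B M] [IsScalarTower B B[X] M] (f : N →ₗ[B] M)
    (i : ℕ) (n : N) : pev f (PolynomialModule.single B i n) = (X : B[X]) ^ i • f n := by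
  have h1 : (PolynomialModule.polynomialTensorProductLEquivPolynomialModule B N).symm
      (PolynomialModule.single B i n) = ((X : B[X]) ^ i) ⊗ₜ[B] n := by
    rw [LinearEquiv.symm_apply_eq]
    change _ = LinearMap.liftBaseChange B[X] (PolynomialModule.lsingle B (M := N) 0) _
    rw [LinearMap.liftBaseChange_tmul, ← Polynomial.monomial_one_right_eq_X_pow,
      PolynomialModule.monomial_smul_lsingle, add_zero, one_smul]
    rfl
  rw [pev, LinearMap.comp_apply, LinearEquiv.coe_coe, h1, LinearMap.liftBaseChange_tmul]

section core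
variable {B : Type} [CommRing B] (s c : B) {M : Type} [AddCommGroup M] [Module B[X] M] [Module B M]
  [IsScalarTower B B[X] M]

/-- evaluation cc(M0) -> M, for M killed by h -/
noncomputable def evq (M0 : Submodule B M) (h0 : ∀ m : M, hh s c • m = 0) :
    cc s c M0 →ₗ[B[X]] M :=
  Submodule.liftQ _ (pev M0.subtype) (by
    rintro _ ⟨x, rfl⟩
    rw [LinearMap.mem_ker, LinearMap.lsmul_apply, map_smul, h0])

/-- kernel of the evaluation -/
abbrev KK (M0 : Submodule B M) (h0 : ∀ m : M, hh s c • m = 0) : Type :=
  LinearMap.ker (evq s c M0 h0)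

/-- M0 is finitely generated over B and generates M over B[X] -/
def Gen (M0 : Submodule B M) : Prop := M0.FG ∧ Submodule.span B[X] (M0 : Set M) = ⊤

/-- the value computed from M0 -/
noncomputable def VV (L : Fn B) (l : Fn B[X]) (M0 : Submodule B M)
    (h0 : ∀ m : M, hh s c • m = 0) : ZMod 2 :=
  L M0 + l (KK s c M0 h0) + l (kk s c M0)

end core

end Pool.Agent.Helper17.FX
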