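import Pool.Agent.Helper41.FX.StK2

set_option autoImplicit false

namespace Pool.Agent.Helper17.FX.C7

open Polynomial Pool.Agent.Helper72.FX Pool.Agent.Helper72.KRF Pool.Agent.Helper41.FX

theorem FP_ne : FP ≠ 0 := by
  intro h
  have h1 := congrArg (MvPolynomial.eval (fun i : Fin 12 => if i = 3 then (1 : ℂ) else 0)) h
  rw [FP, FF] at h1
  simp only [map_sub, map_add, map_mul, MvPolynomial.eval_X, map_zero] at h1
  norm_num [Fin.ext_iff] at h1

/-- general equivalence -/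
theorem equivOf {A' A : Type} [CommRing A'] [CommRing A] (φ : A' →+* A)
    (hφ : Function.Surjective φ) (K : Ideal A') (hK : RingHom.ker φ ≤ K) :
    (letI : Module A' (A ⧸ K.map φ) := Module.compHom (A ⧸ K.map φ) φ
     Nonempty ((A ⧸ K.map φ) ≃ₗ[A'] (A' ⧸ K))) := by
  let _ : Module A' (A ⧸ K.map φ) := Module.compHom (A ⧸ K.map φ) φ
  let L : A' →ₗ[A'] (A ⧸ K.map φ) :=
    { toFun := fun x => Ideal.Quotient.mk (K.map φ) (φ x)
      map_add' := fun x y => by rw [map_add, map_add]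
      map_smul' := fun a x => by
        rw [smul_eq_mul, map_mul]
        rfl }
  have hL : Function.Surjective L := by
    intro y
    obtain ⟨z, rfl⟩ := Ideal.Quotient.mk_surjective y
    obtain ⟨w, rfl⟩ := hφ z
    exact ⟨w, rfl⟩
  have hk : LinearMap.ker L = K := by
    ext x
    rw [LinearMap.mem_ker]
    change Ideal.Quotient.mk (K.map φ) (φ x) = 0 ↔ _
    rw [Ideal.Quotient.eq_zero_iff_mem, ← Ideal.mem_comap, Ideal.comap_map_of_surjective φ hφ]
    have : K ⊔ Ideal.comap φ ⊥ = K := sup_eq_left.2 hK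
    rw [this]
  exact ⟨((Submodule.quotEquivOfEq _ _ hk).symm.trans (L.quotKerEquivOfSurjective hL)).symm⟩

/-- NP of a quotient -/
theorem npOf (hRES : StRES) {A' A : Type} [CommRing A'] [CommRing A] (φ : A' →+* A)
    (hφ : Function.Surjective φ) (I' : Ideal A') (hker : RingHom.ker φ = I')
    (Λ : Type) [AddCommGroup Λ] (χ : AF A' (kil I') Λ) (h0 : χ.f (A' ⧸ I') = 0)
    (K : Ideal A') (hK : I' ≤ K) (h1 : χ.f (A' ⧸ K) ≠ 0) : NP A := by
  have hz : I'.map φ = ⊥ := by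
    rw [← hker]
    exact le_bot_iff.1 (Ideal.map_le_iff_le_comap.2 (fun x hx => by
      rw [Ideal.mem_comap, Ideal.mem_bot]
      exact (RingHom.mem_ker).1 hx))
  obtain ⟨ψ, hψ⟩ := hRES A A' φ ⊥ I' hz.le
    (fun a => by
      obtain ⟨b, rfl⟩ := hφ a
      exact ⟨b, by rw [sub_self]; exact Submodule.zero_mem _⟩) Λ χ
  have key : ∀ K : Ideal A', I' ≤ K → ψ.f (A ⧸ K.map φ) = χ.f (A' ⧸ K) := by
    intro K hK
    let _ : Module A' (A ⧸ K.map φ) := Module.compHom (A ⧸ K.map φ) φ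
    rw [hψ (A ⧸ K.map φ) (fun a m => rfl)]
    obtain ⟨ε⟩ := equivOf φ hφ K (hker.le.trans hK)
    refine AF.equiv χ (gd_kil _) ε inferInstance ?_
    exact kil_mono hK (kil_quot K)
  refine ⟨Λ, inferInstance, ψ, ?_, A ⧸ K.map φ, inferInstance, inferInstance, inferInstance, ?_⟩
  · have k1 := key I' le_rfl
    rw [h0, hz] at k1
    rw [← k1]
    refine (AF.equiv ψ (gd_kil _) (Submodule.quotEquivOfEqBot (⊥ : Ideal A) rfl) inferInstance ?_).symm
    intro x hx y
    rw [Ideal.mem_bot] at hx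
    rw [hx, zero_smul]
  · rw [key K hK]
    exact h1

theorem hC7 (hRES : StRES) (hHOM : StHOM) (hPMX : StPMX) (hZT : StZT) (hZP : StZP)
    (hST6 : StST6) (hE14 : StE14) (hC5M : StC5M) : StC7 := by
  obtain ⟨χ, h0, J, hJ, h1⟩ := hC5M
  obtain ⟨χ6, h60, h6⟩ := hST6 (MvPolynomial (Fin 12) ℂ) FP (ZMod 2) χ h0
    ((hZP hHOM hPMX hZT).1 12) FP_ne
  obtain ⟨e, he⟩ := hE14 FP
  have hpid : pid ⊥ (X : (MvPolynomial (Fin 12) ℂ)[X]) (C FP) =
      Ideal.span {pel (X : (MvPolynomial (Fin 12) ℂ)[X]) (C FP)} := by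
    rw [pid, Ideal.map_bot, bot_sup_eq]
  have hker : RingHom.ker ((Ideal.Quotient.mk (Ideal.span {UVP FP})).comp e.toRingHom) =
      pid ⊥ (X : (MvPolynomial (Fin 12) ℂ)[X]) (C FP) := by
    rw [hpid]
    ext x
    rw [RingHom.mem_ker]
    change Ideal.Quotient.mk (Ideal.span {UVP FP}) (e x) = 0 ↔ _
    rw [Ideal.Quotient.eq_zero_iff_mem, Ideal.mem_span_singleton, ← he]
    refine Iff.trans ?_ (Ideal.mem_span_singleton (x := x)
      (y := pel (X : (MvPolynomial (Fin 12) ℂ)[X]) (C FP))).symm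
    constructor
    · rintro ⟨y, hy⟩
      refine ⟨e.symm y, e.injective ?_⟩
      rw [hy, map_mul, e.apply_symm_apply]
    · rintro ⟨y, rfl⟩
      exact ⟨e y, by rw [map_mul]⟩
  have h7 := h6 J hJ
  rw [h1] at h7
  have hK : pid ⊥ (X : (MvPolynomial (Fin 12) ℂ)[X]) (C FP) ≤
      (J.map (C : MvPolynomial (Fin 12) ℂ →+* (MvPolynomial (Fin 12) ℂ)[X]) ⊔
        Ideal.span {X}).map
        (C : (MvPolynomial (Fin 12) ℂ)[X] →+* (MvPolynomial (Fin 12) ℂ)[X][X]) := by
    rw [hpid]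
    refine (Ideal.span_singleton_le_iff_mem _).2 ?_
    rw [pel]
    refine Ideal.sub_mem _ (Ideal.mul_mem_right _ _ (Ideal.mem_map_of_mem _ ?_))
      (Ideal.mem_map_of_mem _ ?_)
    · exact Ideal.mem_sup_right (Ideal.mem_span_singleton_self _)
    · exact Ideal.mem_sup_left (Ideal.mem_map_of_mem _ hJ)
  have hφ : Function.Surjective ((Ideal.Quotient.mk (Ideal.span {UVP FP})).comp e.toRingHom) := by
    intro y
    obtain ⟨z, rfl⟩ := Ideal.Quotient.mk_surjective y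
    refine ⟨e.symm z, ?_⟩
    change Ideal.Quotient.mk (Ideal.span {UVP FP}) (e (e.symm z)) = _
    rw [e.apply_symm_apply]
  exact npOf hRES _ hφ _ hker (ZMod 2) χ6 h60 _ hK
    (by rw [h7]; exact one_ne_zero)

end Pool.Agent.Helper17.FX.C7

namespace Pool.Agent.Helper17.FX

open Pool.Agent.Helper72.FX Pool.Agent.Helper41.FX

theorem hC7 : StRES → StHOM → StPMX → StZT → StZP → StST6 → StE14 → StC5M → StC7 := C7.hC7

end Pool.Agent.Helper17.FX
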