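import Pool.Agent.Helper21.FX.StF

set_option autoImplicit false

namespace Pool.Agent.Helper17.FX.QUO

open Pool.Agent.Helper72.FX Pool.Agent.Helper21.FX

section
variable {A' A : Type} [CommRing A'] [CommRing A] (φ : A' →+* A) (hφ : Function.Surjective φ)
  (M : Type) [AddCommGroup M] [Module A' M] (h : kil (RingHom.ker φ) M)

include h in
theorem smul_eq {x y : A'} (hxy : φ x = φ y) (m : M) : x • m = y • m := by
  have h1 : (x - y) • m = 0 := h (x - y) (by rw [RingHom.mem_ker, map_sub, hxy, sub_self]) m
  rw [sub_smul] at h1
  exact sub_eq_zero.1 h1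

/-- the module structure over the quotient -/
noncomputable abbrev qmod : Module A M where
  smul a m := Function.surjInv hφ a • m
  one_smul m := by
    change Function.surjInv hφ 1 • m = m
    rw [smul_eq φ M h (y := 1) (by rw [Function.surjInv_eq hφ, map_one]), one_smul]
  mul_smul a b m := by
    change Function.surjInv hφ (a * b) • m = Function.surjInv hφ a • (Function.surjInv hφ b • m)
    rw [smul_smul]
    exact smul_eq φ M h (by rw [map_mul, Function.surjInv_eq hφ, Function.surjInv_eq hφ,
      Function.surjInv_eq hφ]) m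
  smul_zero a := by
    change Function.surjInv hφ a • (0 : M) = 0
    exact smul_zero _
  smul_add a m n := by
    change Function.surjInv hφ a • (m + n) = Function.surjInv hφ a • m + Function.surjInv hφ a • n
    exact smul_add _ _ _
  add_smul a b m := by
    change Function.surjInv hφ (a + b) • m = Function.surjInv hφ a • m + Function.surjInv hφ b • m
    rw [← add_smul]
    exact smul_eq φ M h (by rw [map_add, Function.surjInv_eq hφ, Function.surjInv_eq hφ,
      Function.surjInv_eq hφ]) m
  zero_smul m := by
    change Function.surjInv hφ 0 • m = 0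
    rw [smul_eq φ M h (y := 0) (by rw [Function.surjInv_eq hφ, map_zero]), zero_smul]

theorem qmod_smul (a : A') (m : M) :
    (letI := qmod φ hφ M h; (φ a • m : M)) = a • m := by
  change Function.surjInv hφ (φ a) • m = a • m
  exact smul_eq φ M h (Function.surjInv_eq hφ _) m

end

open Classical in
theorem hQUO : StQUO := by
  intro A' A _ _ φ hφ Λ _ χ
  refine ⟨{ f := fun M _ _ => if h : kil (RingHom.ker φ) M then @AF.f A _ (kil ⊥) Λ _ χ M _
              (qmod φ hφ M h) else 0
            exact' := ?_ }, ?_⟩
  · intro M N Q _ _ _ _ _ _ i p hf hN hi he hp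
    have hM : kil (RingHom.ker φ) M := (gd_kil _).inj M N i hi hN
    have hQ : kil (RingHom.ker φ) Q := (gd_kil _).surj N Q p hp hN
    simp only [dif_pos hN, dif_pos hM, dif_pos hQ]
    letI := φ.toAlgebra
    letI m1 := qmod φ hφ M hM
    letI m2 := qmod φ hφ N hN
    letI m3 := qmod φ hφ Q hQ
    have t2 : IsScalarTower A' A N := ⟨fun a b n => by
      obtain ⟨c, rfl⟩ := hφ b
      change ((φ a * φ c) • n : N) = a • (φ c • n : N)
      rw [← map_mul]
      have e1 : (φ (a * c) • n : N) = (a * c) • n := qmod_smul φ hφ N hN _ _
      have e2 : (φ c • n : N) = c • n := qmod_smul φ hφ N hN _ _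
      rw [e1, e2, mul_smul]⟩
    have f2 : Module.Finite A N := Module.Finite.of_restrictScalars_finite A' A N
    refine χ.exact' M N Q
      { toFun := i, map_add' := i.map_add, map_smul' := fun a m => by
          obtain ⟨c, rfl⟩ := hφ a
          have e1 : (φ c • m : M) = c • m := qmod_smul φ hφ M hM _ _
          have e2 : (φ c • i m : N) = c • i m := qmod_smul φ hφ N hN _ _
          change i (φ c • m) = φ c • i m
          rw [e1, e2, map_smul] }
      { toFun := p, map_add' := p.map_add, map_smul' := fun a m => by
          obtain ⟨c, rfl⟩ := hφ a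
          have e1 : (φ c • m : N) = c • m := qmod_smul φ hφ N hN _ _
          have e2 : (φ c • p m : Q) = c • p m := qmod_smul φ hφ Q hQ _ _
          change p (φ c • m) = φ c • p m
          rw [e1, e2, map_smul] } f2 ?_ hi he hp
    intro x hx y
    rw [Ideal.mem_bot] at hx
    rw [hx, zero_smul]
  · intro M _ i1 i2 hc
    have hM : kil (RingHom.ker φ) M := by
      intro x hx m
      rw [← hc, (RingHom.mem_ker).1 hx, zero_smul]
    change (if h : kil (RingHom.ker φ) M then @AF.f A _ (kil ⊥) Λ _ χ M _
              (qmod φ hφ M h) else 0) = χ.f M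
    rw [dif_pos hM]
    have e : qmod φ hφ M hM = i1 := by
      refine Module.ext' _ _ fun a m => ?_
      obtain ⟨c, rfl⟩ := hφ a
      have e1 : (letI := qmod φ hφ M hM; (φ c • m : M)) = c • m := qmod_smul φ hφ M hM _ _
      exact e1.trans (hc c m).symm
    rw [e]

end Pool.Agent.Helper17.FX.QUO

namespace Pool.Agent.Helper17.FX

theorem hQUO : Pool.Agent.Helper21.FX.StQUO := QUO.hQUO

end Pool.Agent.Helper17.FX
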