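import Pool.Agent.Helper17.FX.Bas

set_option autoImplicit false

/-!
# Project FX, chapter KT: statements

Every module proves `theorem hXXX : StXXX` or `theorem hXXX (h1 : StYYY) ... : StXXX` with the
hypotheses named in its row.  Complete proofs are in the docstrings.  Tools: Bas.lean (Cls.sub, Cls.quot,
AddOn.iso, AddOn.zero, AddOn.sub_quot, AddOn.ker_range, AddOn.exact4, AddOn.exact6, AddOn.free, z2).
Since all values are in ZMod 2, sums are used instead of differences.
-/

namespace Pool.Agent.Helper17.FX

open Polynomial TensorProduct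

/-- TR1 (50 lines).  Transfer of functionals along a surjective ring map S -> B with kernel (a): from B to S.
PROOF.  For an S-module M put L'(M) := L(M) if a kills M, where M gets the B-module structure
(b • m := x • m for any x with algebraMap x = b; e.g. `Module.IsTorsionBySet.module` for the ideal ker and
`RingHom.quotientKerEquivOfSurjective`, or directly by choice of a preimage), and L'(M) := 0 otherwise
(`if h : ∀ m : M, a • m = 0 then (letI := ...; L M) else 0`).
A B-module structure with IsScalarTower S B M on a given S-module is unique (Module.ext, surjectivity), so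
L'(M) = L(M) in the last clause.  Additivity: the three modules are killed by a, S-linear maps are B-linear
(surjectivity), M₂ is finite over B (Module.Finite.of_restrictScalars_finite), injectivity, exactness and
surjectivity do not change. -/
def StTR1 : Prop :=
  ∀ (S B : Type) [CommRing S] [CommRing B] [Algebra S B] (a s : S),
    Function.Surjective (algebraMap S B) → RingHom.ker (algebraMap S B) = Ideal.span {a} →
    ∀ L : Fn B, AddOn 0 (algebraMap S B s) L →
      ∃ L' : Fn S, AddOn a s L' ∧
        ∀ (M : Type) [AddCommGroup M] [Module S M] [Module B M] [IsScalarTower S B M], L' M = L M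

/-- TR2 (40 lines).  The other direction.
PROOF.  L(M) := @L' M _ (Module.compHom M (algebraMap S B)).  Additivity: restrict scalars of the maps
(build the S-linear maps by hand or with `LinearMap.restrictScalars` after installing the compHom instances
and IsScalarTower); a B-module is killed by a; finite over S because B is finite over S (surjective) :
`Module.Finite.of_surjective (Algebra.linearMap S B)`, `Module.Finite.trans B M`.  Last clause: the structure
compHom agrees with the given S-structure (Module.ext, algebraMap_smul). -/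
def StTR2 : Prop :=
  ∀ (S B : Type) [CommRing S] [CommRing B] [Algebra S B] (a s : S),
    Function.Surjective (algebraMap S B) → RingHom.ker (algebraMap S B) = Ideal.span {a} →
    ∀ L' : Fn S, AddOn a s L' →
      ∃ L : Fn B, AddOn 0 (algebraMap S B s) L ∧
        ∀ (M : Type) [AddCommGroup M] [Module S M] [Module B M] [IsScalarTower S B M], L M = L' M

/-- EQP (30 lines, hypotheses StTR1).  Invariance of PP under ring isomorphisms.
PROOF.  Algebra B B' by e.toRingHom (surjective, kernel 0 = (0)).  Let L be additive on B' with L(B') = 0.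
TR1 (a = s = 0) gives L' on B with L'(M) = L(M) for B'-modules M.  L'(B) = L'(B') (B-linear equivalence e, Bas:
AddOn.iso) = L(B') = 0.  So PP B gives L'(M) = 0 for every finite B'-module M (finite over B by restriction,
compHom structure), so L(M) = 0. -/
def StEQP : Prop :=
  ∀ (B B' : Type) [CommRing B] [CommRing B'], (B ≃+* B') → PP B → PP B'

/-- EQE (50 lines, hypotheses StTR1 StTR2).  Invariance of Ext under ring isomorphisms.
PROOF.  As EQP: given l on B' (AddOn 0 (e s)) with l(B'/(e s)) = 0, TR1 gives l1 on B, AddOn 0 s, and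
B/(s) is isomorphic to B'/(e s) over B (Ideal.quotientEquiv), so l1(B/(s)) = 0; Ext B s gives L1; TR2 gives L on B',
L(M) = L1(M); L(B') = L1(B') = L1(B) = 0; on Cls 0 (e s): L M = L1 M = l1 M = l M (Cls transfers since
algebraMap s = e s). -/
def StEQE : Prop :=
  ∀ (B B' : Type) [CommRing B] [CommRing B'] (e : B ≃+* B') (s : B), Ext B s → Ext B' (e s)

/-- K1 (15 lines).  PROOF.  A finite K-module is isomorphic to Fin n → K (Module.Finite.finBasis / `Module.finBasis`
equivFun), use AddOn.iso, cls_zero and AddOn.free. -/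
def StK1 : Prop := ∀ (K : Type) [Field K], PP K

/-- PX (100 lines).  The polynomial module functor is exact and preserves finiteness.
PROOF.  All by coefficients: (pm f x).coeff i = f (x.coeff i) (pm_coeff), PolynomialModule.ext; surjectivity and
exactness: lift the coefficients (Finsupp: choose preimages, take 0 for 0; `Finsupp.mapRange` with a
zero-preserving set-theoretic section, or induction).  Finite: `Module.Finite.base_change` and the equivalence
`PolynomialModule.polynomialTensorProductLEquivPolynomialModule`. -/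
def StPX : Prop :=
  ∀ (B : Type) [CommRing B] (N₁ N₂ N₃ : Type) [AddCommGroup N₁] [AddCommGroup N₂] [AddCommGroup N₃]
    [Module B N₁] [Module B N₂] [Module B N₃] (f : N₁ →ₗ[B] N₂) (g : N₂ →ₗ[B] N₃),
    (Function.Injective f → Function.Injective (pm f)) ∧
    (Function.Surjective g → Function.Surjective (pm g)) ∧
    (Function.Exact f g → Function.Exact (pm f) (pm g)) ∧
    (Module.Finite B N₁ → Module.Finite B[X] (PolynomialModule B N₁))

/-- K2 (180 lines, STRONG, hypotheses StPX).
PROOF.  Let L be additive on finite R[X]-modules, L(R[X]) = 0.  l(N) := L(PolynomialModule R N) is additive on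
finite R-modules (StPX), l(R) = L(R[X]) = 0 (PolynomialModule.equivPolynomialSelf), so l = 0 by PP R.
Let M be a finite R[X]-module, F = (Fin r → R[X]), pi : F → M surjective, K = ker pi (finitely generated,
R[X] noetherian), n ≥ 1 a bound for the degrees of all coordinates of generators k_1..k_q of K.
F_i := vectors with all coordinates in degreeLT R (i+1) (finitely generated R-module), M_i := pi(F_i) (an R-submodule
of M; M as R-module by `Module.compHom M C`, IsScalarTower R R[X] M), finite over R.
Claim: 0 → M_(n-1)[y] → M_n[y] → M → 0 is exact, with al(m y^i) = (X m) y^i - m y^(i+1) and be = pev (inclusion),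
be(m y^i) = X^i m.  Then L(M_n[y]) = L(M_(n-1)[y]) + L(M) and the two l-values are 0, so L(M) = 0.
- al is injective: look at the top coefficient.  be ∘ al = 0.  be is surjective: M_n contains the images of the
  standard basis vectors of F.
- exact in the middle: let m = sum m_i y^i with sum X^i m_i = 0.  Choose f_i in F_n over m_i (f_i = 0 for almost all i).
  sum X^i f_i is in K, so it is sum_j p_j k_j = sum_i X^i k'_i with k'_i = sum_j (p_j).coeff i • k_j in K and in F_n.
  Replace f_i by f_i - k'_i: now sum X^i f_i = 0 in F and pi(f_i) = m_i.  Put g_j := - sum_(i>j) X^(i-1-j) f_i.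
  Then X g_j - g_(j-1) = f_j (g_(-1) = - sum X^i f_i = 0), and X^(j+1) g_j = sum_(i≤j) X^i f_i has coordinates of
  degree ≤ n + j, so g_j is in F_(n-1).  So m = al(sum pi(g_j) y^j). -/
def StK2 : Prop := ∀ (R : Type) [CommRing R] [IsNoetherianRing R], PP R → PP R[X]

/-- SN (90 lines).  The six term exact sequence for multiplication by h.
PROOF.  `SnakeLemma.δ'` of Mathlib.Algebra.Module.SnakeLemma with i₁ i₂ i₃ = lsmul h, f₁ = g₁ = f, f₂ = g₂ = g,
ι = subtype of the kernels, π = mkQ; exactness at K0 M₂ and at Q0 M₂ and the two ends by hand. -/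
def StSN : Prop :=
  ∀ (S : Type) [CommRing S] (h : S) (M₁ M₂ M₃ : Type) [AddCommGroup M₁] [AddCommGroup M₂]
    [AddCommGroup M₃] [Module S M₁] [Module S M₂] [Module S M₃] (f : M₁ →ₗ[S] M₂) (g : M₂ →ₗ[S] M₃),
    Function.Injective f → Function.Exact f g → Function.Surjective g →
    ∃ δ : K0 h M₃ →ₗ[S] Q0 h M₁,
      Function.Injective (K0m h f) ∧ Function.Exact (K0m h f) (K0m h g) ∧
      Function.Exact (K0m h g) δ ∧ Function.Exact δ (Q0m h f) ∧
      Function.Exact (Q0m h f) (Q0m h g) ∧ Function.Surjective (Q0m h g)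

/-- DR (130 lines, hypotheses StSN StPX).  Derived restriction: PP Y[X] implies PP Y.
PROOF.  Let l be additive on finite Y-modules with l(Y) = 0.  For a Y[X]-module M put
L(M) := l(Q0 X M) + l(K0 X M), both as Y-modules by `Module.compHom _ (C : Y →+* Y[X])`.
For M finite over Y[X], Q0 X M and K0 X M are finite over Y (finite over Y[X] and killed by X; Y → Y[X]/(X) is
surjective: the same generators work).  L is additive on all finite modules: StSN with h = X, restrict scalars
to Y, AddOn.exact6 for l (Cls 0 0 = finite).  L(Y[X]) = l(Y[X]/X) + l(0) = l(Y) + 0 = 0.  For a finite Y-module N: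
L(PolynomialModule Y N) = l(N) + l(0): K0 X = 0 and Q0 X is isomorphic to N (coefficient 0).  So PP Y[X] gives
l(N) = 0. -/
def StDR : Prop := ∀ (Y : Type) [CommRing Y] [IsNoetherianRing Y], PP Y[X] → PP Y

/-- K3 (110 lines).  Localization.
PROOF.  L additive on finite S-modules, L(S) = 0.  l(N) := L(S ⊗[R] N) is additive on finite R-modules (S is flat:
`IsLocalization.flat`, `Module.Flat.lTensor_preserves_injective_linearMap`, `lTensor_exact`,
`LinearMap.lTensor_surjective`, as S-linear maps: `LinearMap.baseChange`), l(R) = L(S ⊗ R) = L(S) = 0, so l = 0 on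
finite R-modules.  M finite over S: view M as an R-module (`Module.compHom M (algebraMap R S)`), M0 := R-span of a
finite generating set.  `LinearMap.liftBaseChange S M0.subtype : S ⊗[R] M0 → M` is surjective; injective: every element
of S ⊗[R] M0 is (mk' 1 s^k) ⊗ m (the tensor product is a localized module: `IsLocalizedModule` instance for base
change, or induction on tensors with common denominators); if its image is 0 then m = 0 in M because s acts
invertibly.  So L(M) = l(M0) = 0 by AddOn.iso. -/
def StK3 : Prop :=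
  ∀ (R S : Type) [CommRing R] [CommRing S] [Algebra R S] [IsNoetherianRing R] (s : R)
    [IsLocalization.Away s S], PP R → PP S

/-- DV1 (40 lines).  Devissage, vanishing.
PROOF.  Induction on n, statement for all finite M with s^n M = 0: L(M) = L(sM) + L(M/sM) (AddOn.sub_quot with
P = range (lsmul s)), M/sM is in Cls s 0, sM is killed by s^(n-1) (and finite: Cls.submodule).  n = 0: M = 0. -/
def StDV1 : Prop :=
  ∀ (B : Type) [CommRing B] [IsNoetherianRing B] (s : B) (L : Fn B), AddOn 0 s L →
    (∀ (M : Type) [AddCommGroup M] [Module B M], Cls s 0 M → L M = 0) →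
    ∀ (M : Type) [AddCommGroup M] [Module B M], Cls 0 s M → L M = 0

/-- DV2 (130 lines, STRONG).  Devissage, extension.
PROOF.  Define by recursion on n: D 0 M := 0, D (n+1) M := l(M/sM) + D n (sM) (sM = range (lsmul s) as a module).
(1) D n is invariant under linear equivalences on Cls 0 s (induction; l is invariant on Cls s 0 by AddOn.iso).
(2) If s^n M = 0 (M finite) then D (n+1) M = D n M (induction on n; n = 0: M = 0, l(0) = 0), so D m M = D n M for
m ≥ n.  (3) If s M = 0 then D n M = l(M) for n ≥ 1 (M/sM = M, sM = 0 and D n 0 = 0).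
(4) Additivity, for all n: if 0 → M₁ → M₂ → M₃ → 0 exact, s^n M₂ = 0, M₂ finite, then D n M₂ = D n M₁ + D n M₃.
Induction on n; n = 0 trivial.  n+1: identify M₁ with a submodule of M₂ (range f).  Put P = M₁ ∩ sM₂ (contains sM₁).
sM₂ → sM₃ surjective with kernel P, all killed by s^n: D n (sM₂) = D n P + D n (sM₃).
0 → M₁/P → M₂/sM₂ → M₃/sM₃ → 0 exact, killed by s: l(M₂/sM₂) = l(M₁/P) + l(M₃/sM₃).  l(M₁/sM₁) = l(P/sM₁) + l(M₁/P).
D n P = D n (sM₁) + D n (P/sM₁) = D n (sM₁) + l(P/sM₁) (case n; if n = 0 then P = 0 and both sides are 0).  Sum up, in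
ZMod 2.  Finally L M := D (Nat.find) M if some power of s kills M (any n with s^n M = 0 gives the same value by (2)),
0 otherwise. -/
def StDV2 : Prop :=
  ∀ (B : Type) [CommRing B] [IsNoetherianRing B] (s : B) (l : Fn B), AddOn s 0 l →
    ∃ L : Fn B, AddOn 0 s L ∧ ∀ (M : Type) [AddCommGroup M] [Module B M], Cls s 0 M → L M = l M

/-- PS1 (50 lines, hypotheses StTR2 StDV1).
PROOF.  L(B/t) = 0: 0 → B → B → B/t → 0 exact (multiplication by t, t a nonzerodivisor).  L restricted to modules
killed by t is AddOn t 0, TR2 (S = B, ring B/t, a = t, s = 0) gives an additive functional on B/t with value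
L(B/t) = 0 at B/t, so it vanishes by PP (B/t): L(M) = 0 for M in Cls t 0 (M is a B/t-module:
`Module.IsTorsionBySet.module` / Module.quotientAnnihilator style).  Then StDV1. -/
def StPS1 : Prop :=
  ∀ (B : Type) [CommRing B] [IsNoetherianRing B] (t : B), t ∈ nonZeroDivisors B →
    PP (B ⧸ Ideal.span {t}) → ∀ L : Fn B, AddOn 0 0 L → L B = 0 →
    ∀ (M : Type) [AddCommGroup M] [Module B M], Cls 0 t M → L M = 0

/-- PS2 (180 lines, STRONG).
PROOF.  For a finite S-module M (a B-module by compHom along algebraMap) call a B-submodule M0 good if it is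
finitely generated and spans M over S.  Good M0 exist (B-span of a finite generating set); M0 ≤ M0' good: M0'/M0 is
finite and killed by a power of t (every m in M = S M0 satisfies t^k m in M0), so L(M0') = L(M0) + 0.  For two good
M0, M0'' compare with M0 ⊔ M0''.  l(M) := L(M0) for a chosen good M0 (0 if M is not finite).
Additive: 0 → M' → M → M'' → 0: choose M0 good for M containing generators of M' (span M', FG over S since
S is noetherian: IsLocalization.isNoetherianRing) ; M0' := comap f M0 is good for M' (FG by noetherianity, contains the generators),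
M0'' := map g M0 is good for M''; 0 → M0' → M0 → M0'' → 0 is exact.
For N finite over B: in S ⊗ N the image M0 of N (n ↦ 1 ⊗ n) is good, the kernel N1 of N → M0 is killed by a power
of t (elementwise: IsLocalizedModule.eq_zero_iff or `TensorProduct` with localization; N1 is finite), so
l(S ⊗ N) = L(M0) = L(N) + L(N1) = L(N). -/
def StPS2 : Prop :=
  ∀ (B S : Type) [CommRing B] [CommRing S] [Algebra B S] [IsNoetherianRing B] (t : B)
    [IsLocalization.Away t S] (L : Fn B), AddOn 0 0 L →
    (∀ (M : Type) [AddCommGroup M] [Module B M], Cls 0 t M → L M = 0) →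
    ∃ l : Fn S, AddOn 0 0 l ∧
      ∀ (N : Type) [AddCommGroup N] [Module B N], Module.Finite B N → l (S ⊗[B] N) = L N

/-- PS (25 lines, hypotheses StPS1 StPS2).
PROOF.  L additive on B with L(B) = 0.  StPS1 and StPS2 give l on S; l(S) = l(S ⊗ B) = L(B) = 0 (AddOn.iso), so l = 0 and
L(N) = l(S ⊗ N) = 0 (S ⊗ N is finite over S: Module.Finite.base_change). -/
def StPS : Prop :=
  ∀ (B S : Type) [CommRing B] [CommRing S] [Algebra B S] [IsNoetherianRing B] (t : B)
    [IsLocalization.Away t S], t ∈ nonZeroDivisors B → PP S → PP (B ⧸ Ideal.span {t}) → PP B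

/-- BOT (30 lines, hypotheses StTR2 StDV1).
PROOF.  l with AddOn 0 s l and l(B/s) = 0 vanishes on Cls s 0 (AddOn s 0 l by AddOn.mono and cls_of_smul; TR2 to
B/(s) with a = s, s = 0, then PP; as in PS1) and so on Cls 0 s by StDV1.  Take L = 0. -/
def StBOT : Prop :=
  ∀ (B : Type) [CommRing B] [IsNoetherianRing B] (s : B), PP (B ⧸ Ideal.span {s}) → Ext B s

/-- FIN (30 lines, hypotheses StTR1 StDV2).
PROOF.  not PP (B/s) gives an additive la on B/s with la(B/s) = 0 and a finite M with la(M) <> 0.  TR1 (a = s, s = 0)
gives l' on B, AddOn s 0 l'; DV2 gives l with AddOn 0 s l extending l'; l(B/s) = 0; Ext gives L additive on B,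
L(B) = 0, L(M) = l(M) = la(M) <> 0 (M a B-module by compHom, in Cls s 0, so in Cls 0 s). -/
def StFIN : Prop :=
  ∀ (B : Type) [CommRing B] [IsNoetherianRing B] (s : B), Ext B s → ¬ PP (B ⧸ Ideal.span {s}) →
    ¬ PP B

/-- NZ (70 lines).
PROOF.  (a) hh s c * p = 0, p <> 0 of degree d with leading coefficient u: the coefficient of X^(d+1) is s u, so u = 0.
(b) Let (C s) p = (hh s c) q.  Modulo s: - C(c) q = 0 in (B/s)[X] (Polynomial.map), c is a nonzerodivisor mod s, so
every coefficient of q is in (s), q = C s * q'.  Then C s * (p - hh s c * q') = 0 and C s is a nonzerodivisor of B[X]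
(coefficientwise), so p is in the ideal (hh s c). -/
def StNZ : Prop :=
  ∀ (B : Type) [CommRing B] (s c : B), s ∈ nonZeroDivisors B →
    Ideal.Quotient.mk (Ideal.span {s}) c ∈ nonZeroDivisors (B ⧸ Ideal.span {s}) →
    hh s c ∈ nonZeroDivisors B[X] ∧
      Ideal.Quotient.mk (Ideal.span {hh s c}) (C s) ∈ nonZeroDivisors (Md B s c)

/-- TOR (90 lines, hypotheses StPX).
PROOF.  (i) kk s c N is a submodule of the finite module N[X] over the noetherian ring B[X]; killed by h.  If
f = sum f_i X^i (degree ≤ d) satisfies (sX - c) f = 0 then s f_d = 0, s f_(i-1) = c f_i, so by downward induction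
s^(d+1-i) f_i = 0, so s^(d+1) f = 0; take the maximum over finitely many generators.
(ii) cc s c T, kk s c T are finite and killed by h, and by the power of s that kills T (C s acts coefficientwise).
(iii) clear. -/
def StTOR : Prop :=
  ∀ (B : Type) [CommRing B] [IsNoetherianRing B] (s c : B) (N : Type) [AddCommGroup N] [Module B N],
    Module.Finite B N →
      Cls (hh s c) (C s) (kk s c N) ∧
      (Cls 0 s N → Cls (hh s c) (C s) (cc s c N)) ∧
      Cls (hh s c) 0 (cc s c N)

/-- SNK (15 lines, hypotheses StSN StPX).  StSN for pm f, pm g. -/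
def StSNK : Prop :=
  ∀ (B : Type) [CommRing B] (s c : B) (N₁ N₂ N₃ : Type) [AddCommGroup N₁] [AddCommGroup N₂]
    [AddCommGroup N₃] [Module B N₁] [Module B N₂] [Module B N₃] (f : N₁ →ₗ[B] N₂) (g : N₂ →ₗ[B] N₃),
    Function.Injective f → Function.Exact f g → Function.Surjective g →
    ∃ δ : kk s c N₃ →ₗ[B[X]] cc s c N₁,
      Function.Injective (km s c f) ∧ Function.Exact (km s c f) (km s c g) ∧
      Function.Exact (km s c g) δ ∧ Function.Exact δ (cm s c f) ∧
      Function.Exact (cm s c f) (cm s c g) ∧ Function.Surjective (cm s c g)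

/-- PD (30 lines, hypotheses StTOR StSNK).  The pulled down functional is additive: exact6 for the sequence of SNK;
all terms are in Cls h (C s) by TOR. -/
def StPD : Prop :=
  ∀ (B : Type) [CommRing B] [IsNoetherianRing B] (s c : B) (l : Fn B[X]),
    AddOn (hh s c) (C s) l →
    AddOn 0 s (fun (T : Type) [AddCommGroup T] [Module B T] => l (cc s c T) + l (kk s c T))

/-- GEN (50 lines).  PROOF.  (a) M finite over B[X]: the B-span of a finite generating set.  (b) supremum.
(c) Choose M0 = B-span of a finite set of generators of M and of the images of generators of M' (M' is finite over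
B[X]: noetherian).  comap is FG over B: it embeds in M0 (f injective), B noetherian; it contains the generators of M'.
(d) map: FG, and spans since g is surjective. -/
def StGEN : Prop :=
  ∀ (B : Type) [CommRing B] [IsNoetherianRing B] (M' M M'' : Type) [AddCommGroup M'] [AddCommGroup M]
    [AddCommGroup M''] [Module B[X] M'] [Module B[X] M] [Module B[X] M''] [Module B M'] [Module B M]
    [Module B M''] [IsScalarTower B B[X] M'] [IsScalarTower B B[X] M] [IsScalarTower B B[X] M'']
    (f : M' →ₗ[B[X]] M) (g : M →ₗ[B[X]] M''), Module.Finite B[X] M → Function.Injective f →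
    Function.Surjective g →
    (∃ M0 : Submodule B M, Gen M0) ∧
    (∀ M0 M1 : Submodule B M, Gen M0 → Gen M1 → Gen (M0 ⊔ M1)) ∧
    ∃ M0 : Submodule B M, Gen M0 ∧ Gen (M0.comap (f.restrictScalars B)) ∧
      Gen (M0.map (g.restrictScalars B))

/-- KKC (90 lines, hypotheses StTOR).
PROOF.  KK is a submodule of cc s c M0 (M0 is finite over B, cc finite over the noetherian ring B[X], killed by h).
s-torsion: let z in KK be the class of f = sum_(i≤d) f_i X^i, f_i in M0, with sum X^i f_i = 0 in M.  In cc: X s = c, so
(C s)^d f is the class of the constant polynomial m = sum s^(d-i) c^i f_i in M0.  In M also X s m' = c m' (h kills M), so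
m = (C s)^d sum X^i f_i = 0 in M, so m = 0 in M0 and (C s)^d z = 0.  Maximum over finitely many generators of KK.
(b) the same computation: for x in M (spanned by M0) some s^d x is in M0. -/
def StKKC : Prop :=
  ∀ (B : Type) [CommRing B] [IsNoetherianRing B] (s c : B) (M : Type) [AddCommGroup M] [Module B[X] M]
    [Module B M] [IsScalarTower B B[X] M] (h0 : ∀ m : M, hh s c • m = 0) (M0 : Submodule B M),
    Gen M0 → Cls (hh s c) (C s) (KK s c M0 h0) ∧ (∀ x : M, ∃ n : ℕ, s ^ n • x ∈ M0) ∧
      Function.Surjective (evq s c M0 h0)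

/-- E3 (150 lines, STRONG, hypotheses StTOR StSNK StKKC).  Independence of M0.
PROOF.  Q := M0'/M0 (as a B-module: ↥M0' ⧸ (M0.submoduleOf M0')), finite and killed by a power of s (StKKC (b)).
i : M0 → M0' the inclusion, q : M0' → Q.  StSNK gives δ; D := range δ.  In ZMod 2:
(1) L(M0') = L(M0) + L(Q).  (2) L(Q) = l(cc Q) + l(kk Q) (hypothesis).  (3) exact4 for
0 → kk M0 → kk M0' → kk Q → D → 0: l(kk M0) + l(kk M0') + l(kk Q) + l(D) = 0.
(4) exact4 for 0 → D → KK M0 → KK M0' → cc Q → 0 : l(D) + l(KK M0) + l(KK M0') + l(cc Q) = 0.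
[D ⊆ KK M0: evq M0 = evq M0' ∘ cm i and cm i kills D.  KK M0 → KK M0' is cm i restricted, its kernel is
ker(cm i) ∩ KK M0 = D.  KK M0' → cc Q is cm q restricted: kernel = elements cm i (z) with evq M0 z = 0; surjective: for
w in cc Q take y in cc M0' over w, evq M0' y = evq M0 z for some z in cc M0 (surjective), and y - cm i z is in KK M0'.]
Adding: V(M0) + V(M0') = L(Q) + l(cc Q) + l(D) + l(kk Q) + l(D) = 0. -/
def StE3 : Prop :=
  ∀ (B : Type) [CommRing B] [IsNoetherianRing B] (s c : B) (L : Fn B) (l : Fn B[X]),
    AddOn 0 0 L → AddOn (hh s c) (C s) l →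
    (∀ (T : Type) [AddCommGroup T] [Module B T], Cls 0 s T → L T = l (cc s c T) + l (kk s c T)) →
    ∀ (M : Type) [AddCommGroup M] [Module B[X] M] [Module B M] [IsScalarTower B B[X] M]
      (h0 : ∀ m : M, hh s c • m = 0) (M0 M0' : Submodule B M), Gen M0 → Gen M0' → M0 ≤ M0' →
      VV s c L l M0 h0 = VV s c L l M0' h0

/-- E4 (150 lines, STRONG, hypotheses StTOR StSNK StKKC).  Additivity.
PROOF.  M0' := comap f M0, M0'' := map g M0, a : M0' → M0, b : M0 → M0'' the restrictions of f, g: injective, exact
(range f = ker g), surjective.  StSNK gives δ : kk M0'' → cc M0', D := range δ = ker (cm a).  In ZMod 2: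
(1) L(M0) = L(M0') + L(M0'').  (2) exact4: 0 → kk M0' → kk M0 → kk M0'' → D → 0.
(3) 0 → D → KK M0' → KK M0 → KK M0'' → 0 exact.  [f ∘ evq M0' = evq M0 ∘ cm a, g ∘ evq M0 = evq M0'' ∘ cm b.  D ⊆ KK M0'
since f is injective.  z in KK M0 with cm b z = 0: z = cm a w, f (evq w) = 0 so w in KK M0'.  Surjective: z'' in KK M0'',
z in cc M0 over it, evq z is in ker g = range f, = f m', m' = evq M0' w' , z - cm a w' is in KK M0 and maps to z''.]
Adding the three relations gives V(M0) = V(M0') + V(M0''). -/
def StE4 : Prop :=
  ∀ (B : Type) [CommRing B] [IsNoetherianRing B] (s c : B) (L : Fn B) (l : Fn B[X]),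
    AddOn 0 0 L → AddOn (hh s c) (C s) l →
    ∀ (M' M M'' : Type) [AddCommGroup M'] [AddCommGroup M] [AddCommGroup M'']
      [Module B[X] M'] [Module B[X] M] [Module B[X] M''] [Module B M'] [Module B M] [Module B M'']
      [IsScalarTower B B[X] M'] [IsScalarTower B B[X] M] [IsScalarTower B B[X] M'']
      (f : M' →ₗ[B[X]] M) (g : M →ₗ[B[X]] M'') (h1 : ∀ m : M', hh s c • m = 0)
      (h0 : ∀ m : M, hh s c • m = 0) (h2 : ∀ m : M'', hh s c • m = 0),
      Function.Injective f → Function.Exact f g → Function.Surjective g →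
      ∀ M0 : Submodule B M, Gen M0 → Gen (M0.comap (f.restrictScalars B)) →
        Gen (M0.map (g.restrictScalars B)) →
        VV s c L l M0 h0 = VV s c L l (M0.comap (f.restrictScalars B)) h1 +
          VV s c L l (M0.map (g.restrictScalars B)) h2

/-- E5 (40 lines, hypotheses StTOR StKKC).  PROOF.  M0 is finite over B and killed by a power of s (C s acts as s):
L(M0) = l(cc M0) + l(kk M0).  0 → KK M0 → cc M0 → M → 0 is exact (evq surjective, StKKC) and cc M0 is in the class
(StTOR): l(cc M0) = l(KK M0) + l(M).  So V = l(cc) + l(kk) + l(KK) + l(kk) = l(M). -/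
def StE5 : Prop :=
  ∀ (B : Type) [CommRing B] [IsNoetherianRing B] (s c : B) (L : Fn B) (l : Fn B[X]),
    AddOn (hh s c) (C s) l →
    (∀ (T : Type) [AddCommGroup T] [Module B T], Cls 0 s T → L T = l (cc s c T) + l (kk s c T)) →
    ∀ (M : Type) [AddCommGroup M] [Module B[X] M] [Module B M] [IsScalarTower B B[X] M]
      (h0 : ∀ m : M, hh s c • m = 0) (M0 : Submodule B M), Gen M0 → Cls (hh s c) (C s) M →
      VV s c L l M0 h0 = l M

/-- E6 (140 lines, STRONG, hypotheses StTOR StSNK).  The formula for M = cc N.
PROOF.  M0 := range of the B-linear map j : N → cc s c N, n ↦ class of single 0 n.  Gen M0: M0 is FG; X^i j(n) is the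
class of single i n, these span.  N1 := ker j.  n in N1: n = (sX - c) f with f = sum_(i≤d) f_i X^i: s f_d = 0,
s f_(i-1) = c f_i for i = 1..d, n = - c f_0: so s^(d+1) f_0 = 0 and s^(d+1) n = 0; N1 is in Cls 0 s.
p : N → M0 the corestriction of j, u : N1 → N the inclusion: 0 → N1 → N → M0 → 0 exact; StSNK gives δ.
cm u = 0: the class of single i n with n in N1 is X^i j(n) = 0 (the elements single i n generate).  So δ is surjective
and cm p is injective.  evq M0 ∘ cm p = id on cc N (check on single i n), cm p surjective, so evq M0 is injective: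
KK M0 is a subsingleton, l(KK M0) = 0.  exact4: l(kk N1) + l(kk N) + l(kk M0) + l(cc N1) = 0; L(N) = L(N1) + L(M0);
L(N1) = l(cc N1) + l(kk N1).  Adding: V(M0) = L(M0) + l(kk M0) = L(N) + l(kk N). -/
def StE6 : Prop :=
  ∀ (B : Type) [CommRing B] [IsNoetherianRing B] (s c : B) (L : Fn B) (l : Fn B[X]),
    AddOn 0 0 L → AddOn (hh s c) (C s) l →
    (∀ (T : Type) [AddCommGroup T] [Module B T], Cls 0 s T → L T = l (cc s c T) + l (kk s c T)) →
    ∀ (N : Type) [AddCommGroup N] [Module B N], Module.Finite B N →
      ∀ h0 : ∀ m : cc s c N, hh s c • m = 0,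
      ∃ M0 : Submodule B (cc s c N), Gen M0 ∧ VV s c L l M0 h0 = L N + l (kk s c N)

/-- LE (100 lines, hypotheses StTOR StGEN StE3 StE4 StE5 StE6).  LEMMA E.
PROOF.  For a B[X]-module M use `letI : Module B M := Module.compHom M (C : B →+* B[X])` (IsScalarTower B B[X] M:
algebraMap_smul style) and put L'(M) := VV s c L l M0 h0 for a chosen M0 with Gen M0 if h kills M (proof h0) and such an
M0 exists, 0 otherwise.  By E3 (with M0 ⊔ M1 from StGEN) every M0 with Gen M0 gives the value.  Additive by E4 and
StGEN (c); the modules M', M'' are killed by h and finite.  Second clause: E5.  Third: E6; the B-structure on cc s c N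
in E6 is the natural one, it equals the compHom structure (Module.ext; or prove a small lemma that VV does not
depend on the instance: `subst`). -/
def StLE : Prop :=
  ∀ (B : Type) [CommRing B] [IsNoetherianRing B] (s c : B) (L : Fn B) (l : Fn B[X]),
    AddOn 0 0 L → AddOn (hh s c) (C s) l →
    (∀ (T : Type) [AddCommGroup T] [Module B T], Cls 0 s T → L T = l (cc s c T) + l (kk s c T)) →
    ∃ L' : Fn B[X], AddOn (hh s c) 0 L' ∧
      (∀ (M : Type) [AddCommGroup M] [Module B[X] M], Cls (hh s c) (C s) M → L' M = l M) ∧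
      ∀ (N : Type) [AddCommGroup N] [Module B N], Module.Finite B N →
        L' (cc s c N) = L N + l (kk s c N)

/-- CCB (100 lines).
PROOF.  (a) PolynomialModule B B ≃ B[X] (equivPolynomialSelf) maps range (h •) to the ideal (h): Submodule.Quotient.equiv
(range (lsmul h) on B[X] is span {h}).  (b) PolynomialModule B (B/s) is B[X]/(C s) (pm of mkQ is surjective with kernel
C s * B[X], StPX may be used), so cc s c (B/s) = B[X]/(C s, h) = Md/(C s): e.g. both are quotients of B[X] (as
B[X]-modules, by surjective linear maps with the same kernel span {C s, h}).  (c) kernel of h on B[X] is 0.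
(d) f in kk s c (B/s): s acts as 0, so C c • f = 0, coefficientwise c f_i = 0 in B/s, f_i = 0. -/
def StCCB : Prop :=
  ∀ (B : Type) [CommRing B] (s c : B),
    Nonempty (cc s c B ≃ₗ[B[X]] Md B s c) ∧
    Nonempty (cc s c (B ⧸ Ideal.span {s}) ≃ₗ[B[X]]
      (Md B s c ⧸ Ideal.span {Ideal.Quotient.mk (Ideal.span {hh s c}) (C s)})) ∧
    (hh s c ∈ nonZeroDivisors B[X] → Subsingleton (kk s c B)) ∧
    (Ideal.Quotient.mk (Ideal.span {s}) c ∈ nonZeroDivisors (B ⧸ Ideal.span {s}) →
      Subsingleton (kk s c (B ⧸ Ideal.span {s})))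

/-- STEP (80 lines, hypotheses StTR1 StTR2 StNZ StTOR StPD StLE StCCB).
PROOF.  The nonzerodivisor claim is StNZ.  Let l on Md be AddOn 0 (C s) with l(Md/(C s)) = 0.  TR1 (S = B[X], ring Md,
a = hh s c, s = C s; kernel of the quotient map: Ideal.mk_ker) gives l1 on B[X], AddOn (hh s c) (C s) l1.  Pull down:
l0(T) := l1(cc T) + l1(kk T) is AddOn 0 s (StPD), and l0(B/s) = l1(cc (B/s)) + 0 = l1(Md/(C s)) = l(Md/(C s)) = 0 (StCCB,
AddOn.iso; the class of cc (B/s) is in StTOR).  Ext B s gives L with AddOn 0 0 L, L(B) = 0, L = l0 on Cls 0 s.  StLE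
gives L1 on B[X]; TR2 (a = hh s c, s = 0) gives L2 on Md: AddOn 0 0.  L2(Md) = L1(Md) = L1(cc B) = L(B) + l1(kk B) = 0
(StCCB (a), (c), StNZ).  On M in Cls 0 (C s) over Md: L2 M = L1 M = l1 M = l M. -/
def StSTEP : Prop :=
  ∀ (B : Type) [CommRing B] [IsNoetherianRing B] (s c : B), s ∈ nonZeroDivisors B →
    Ideal.Quotient.mk (Ideal.span {s}) c ∈ nonZeroDivisors (B ⧸ Ideal.span {s}) →
    Ext B s →
      Ext (Md B s c) (Ideal.Quotient.mk (Ideal.span {hh s c}) (C s)) ∧
      Ideal.Quotient.mk (Ideal.span {hh s c}) (C s) ∈ nonZeroDivisors (Md B s c)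

/-- NP0 (60 lines).  PROOF.  L(M) := finrank ℂ M mod 2 (M a ℂ-module by compHom along ℂ → ℂ[X] → quotient) is additive
on finite modules (finite over ℂ since the ring is), L(ring) = 2 = 0 (AdjoinRoot / `Polynomial` quotient basis:
finrank of ℂ[X]/(X^2) is 2, e.g. `finrank_quotient_span_eq_natDegree`), and the module ring/(X) has dimension 1. -/
def StNP0 : Prop := ¬ PP (ℂ[X] ⧸ Ideal.span {(X : ℂ[X]) ^ 2})

/-- MV (30 lines, hypotheses StK1 StK2 StEQP).  PROOF.  Induction on k: `MvPolynomial.isEmptyRingEquiv` for Fin 0 and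
`MvPolynomial.finSuccEquiv` : MvPolynomial (Fin (k+1)) ℂ ≃ₐ (MvPolynomial (Fin k) ℂ)[X]; noetherian by instance. -/
def StMV : Prop := ∀ k : ℕ, PP (MvPolynomial (Fin k) ℂ)

end Pool.Agent.Helper17.FX
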